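import Pool.Agent.NPC.Defs

/-!
Offline and online estimators over the binary alphabet: the definitions used in the statement.
-/

namespace Pool.Agent.H109R3.OE

open Pool.Agent.NPC

/-- `f` lies in `P`: given `x` and the precision `k` (in unary), numbers `a`, `b` (in binary) with
`|a / b - f x| ≤ 2 ^ (-k) f x` are computed in polynomial time. -/
def InP (f : List Bool → ℝ) : Prop :=
  ∃ F : List Bool → List Bool, PolyTime F ∧ ∀ (x : List Bool) (k : ℕ), ∃ a b : ℕ, 0 < b ∧
    F (pairBits x (List.replicate k true)) = bits (a, b) ∧ |(a : ℝ) / b - f x| ≤ f x / 2 ^ k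

/-- An offline estimator: a probability distribution on the words of each length. -/
def Offline (q : List Bool → ℝ) : Prop :=
  (∀ x, 0 ≤ q x) ∧ ∀ n : ℕ, ∑ v : Fin n → Bool, q (List.ofFn v) = 1

/-- An online estimator: time-consistent, with total mass one. -/
def Online (q : List Bool → ℝ) : Prop :=
  q [] = 1 ∧ (∀ x, 0 ≤ q x) ∧ ∀ x, q x = q (x ++ [false]) + q (x ++ [true])

/-- The regret `max_x ln (q x / qt x)` over the words `x` of length `n` is larger than `B`. -/
def RegretGt (q qt : List Bool → ℝ) (n : ℕ) (B : ℝ) : Prop :=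
  ∃ x : List Bool, x.length = n ∧ Real.exp B * qt x < q x

end Pool.Agent.H109R3.OE
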