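import Pool.Agent.H109R3.OE.Defs
import Pool.Agent.H660R2.NX.Run

/-!
An offline estimator in polynomial time whose regret with respect to every online estimator in
polynomial time is at least a positive power of the length.
-/

namespace Pool.Agent.H109R3.OE

open Pool.Agent.NPC Pool.Agent.H660R2.NX
open TDec (dec dec_toT toT_dec poly_dec)

/-! ### The words -/

/-- the `i`-th program -/
def cod (i : ℕ) : T × List Unit :=
  (unbits (T × List Unit) i.bits.reverse.tail.reverse).getD (T.nil, [])

/-- the value computed by the program `e` at `z` with precision `2`, within `pad.length` steps -/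
def vl (e : T × List Unit) (z : List Bool) (pad : List Unit) : Option (ℕ × ℕ) :=
  (U e (pairBits z [true, true]) pad.length).bind (unbits (ℕ × ℕ))

/-- the next letter: the one with the smaller value -/
def dcs (e : T × List Unit) (z : List Bool) (pad : List Unit) : Bool :=
  (vl e (z ++ [false]) pad).elim false (fun a =>
    (vl e (z ++ [true]) pad).elim false (fun b => decide (b.1 * a.2 < a.1 * b.2)))

/-- one more letter -/
def stp (e : T × List Unit) (pad : List Unit) (z : List Bool) : List Bool := z ++ [dcs e z pad]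

/-- the word found for the program `e` -/
def zs (e : T × List Unit) (pad : List Unit) : List Bool := (stp e pad)^[pad.length] []

/-- the number of programs whose word is `x` -/
def cnt (x : List Bool) : ℕ :=
  ((List.range (x.length + 1)).filter (fun i => decide (zs (cod i) (x.map (fun _ => ())) = x))).length

attribute [local fun_prop] Poly.optBind

theorem poly_unbits' {α β : Type} [TEnc α] [TEnc β] [TDec β] {f : α → List Bool} (hf : Poly f) :
    Poly (fun a => unbits β (f a)) := poly_unbits.comp hf

theorem poly_cod {α : Type} [TEnc α] {f : α → ℕ} (hf : Poly f) : Poly (fun a => cod (f a)) := by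
  unfold cod
  have h1 : Poly (fun a => (f a).bits) := NPC.Poly.natBits hf
  refine Poly.optGetD (poly_unbits' (β := T × List Unit) ?_) (by fun_prop)
  fun_prop

theorem poly_vl {α : Type} [TEnc α] {e : α → T × List Unit} {z : α → List Bool}
    {pad : α → List Unit} (he : Poly e) (hz : Poly z) (hp : Poly pad) :
    Poly (fun a => vl (e a) (z a) (pad a)) := by
  unfold vl
  refine Poly.optBind (f := fun _ y => unbits (ℕ × ℕ) y) ?_ (poly_unbits' (Poly.snd Poly.id))
  exact poly_U.comp (f := fun a => (e a, pairBits (z a) [true, true], pad a)) (by fun_prop)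

theorem poly_dcs {α : Type} [TEnc α] {e : α → T × List Unit} {z : α → List Bool}
    {pad : α → List Unit} (he : Poly e) (hz : Poly z) (hp : Poly pad) :
    Poly (fun a => dcs (e a) (z a) (pad a)) := by
  unfold dcs
  refine Poly.optElim (poly_vl he (by fun_prop) hp) (by fun_prop) ?_
  refine Poly.optElim (o := fun p : α × (ℕ × ℕ) => vl (e p.1) (z p.1 ++ [true]) (pad p.1))
    (g := fun _ => false) (h := fun p b => decide (b.1 * p.2.2 < p.2.1 * b.2))
    (poly_vl (he.comp (Poly.fst Poly.id)) (by fun_prop) (hp.comp (Poly.fst Poly.id)))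
    (by fun_prop) ?_
  fun_prop

theorem length_iter (e : T × List Unit) (pad : List Unit) (k : ℕ) (z : List Bool) :
    ((stp e pad)^[k] z).length = z.length + k := by
  induction k with
  | zero => rfl
  | succ k ih =>
    rw [Function.iterate_succ_apply', stp, List.length_append, ih]
    simp
    omega

theorem length_zs (e : T × List Unit) (pad : List Unit) : (zs e pad).length = pad.length := by
  unfold zs
  rw [length_iter]
  simp

theorem poly_zs : Poly (fun p : (T × List Unit) × List Unit => zs p.1 p.2) := by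
  unfold zs
  refine Poly.iterLen (l := fun p : (T × List Unit) × List Unit => p.2)
    (s := fun _ => ([] : List Bool)) (F := fun p z => stp p.1 p.2 z) (by fun_prop) (by fun_prop) ?_
    (4 * Polynomial.X + 1) ?_
  · unfold stp
    have := poly_dcs (e := fun p : ((T × List Unit) × List Unit) × List Bool => p.1.1)
      (z := fun p => p.2) (pad := fun p => p.1.2) (by fun_prop) (by fun_prop) (by fun_prop)
    fun_prop
  · intro p k hk
    have h1 := sz_listBool_le ((stp p.1 p.2)^[k] [])
    rw [length_iter] at h1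
    have h2 := length_lt_sz p.2
    simp only [List.length_nil] at h1
    obtain ⟨e, pad⟩ := p
    change sz ((stp e pad)^[k] []) ≤ _
    simp only [sz_pair, Polynomial.eval_add, Polynomial.eval_mul, Polynomial.eval_ofNat,
      Polynomial.eval_X, Polynomial.eval_one] at *
    have h3 := sz_pos e
    omega

theorem poly_cnt : Poly cnt := by
  unfold cnt
  have h1 : UPoly (fun x : List Bool => x.length + 1) :=
    UPoly.add (UPoly.length Poly.id) (UPoly.const 1)
  have h2 : Poly (fun x : List Bool => List.range (x.length + 1)) := Poly.range_uPoly h1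
  refine Poly.length (Poly.filter h2 ?_)
  have h3 : Poly (fun p : List Bool × ℕ => zs (cod p.2) (p.1.map (fun _ => ()))) :=
    poly_zs.comp (f := fun p : List Bool × ℕ => (cod p.2, p.1.map (fun _ => ())))
      (Poly.pair (poly_cod (Poly.snd Poly.id)) (by fun_prop))
  exact Poly.dec_eq h3 (Poly.fst Poly.id)

/-- every program has a number -/
theorem exists_cod (e : T × List Unit) : ∃ i, cod i = e := by
  -- the number with binary digits `bits e ++ [true]`
  have key : ∀ l : List Bool, ∃ i : ℕ, i.bits = l ++ [true] := by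
    intro l
    induction l with
    | nil => exact ⟨1, rfl⟩
    | cons b l ih =>
      obtain ⟨i, hi⟩ := ih
      refine ⟨Nat.bit b i, ?_⟩
      have hne : i ≠ 0 := by
        rintro rfl
        simp at hi
      rw [Nat.bits_append_bit i b (fun h => absurd h hne), hi]
      rfl
  obtain ⟨i, hi⟩ := key (bits e)
  refine ⟨i, ?_⟩
  unfold cod
  rw [hi]
  simp [unbits_bits]

/-! ### The estimator -/

/-- the offline estimator -/
noncomputable def est (x : List Bool) : ℝ := (cnt x : ℝ) / ((x.length + 1 : ℕ) : ℝ)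

theorem cnt_eq (x : List Bool) : cnt x = ∑ i ∈ Finset.range (x.length + 1),
    if zs (cod i) (List.replicate x.length ()) = x then 1 else 0 := by
  unfold cnt
  have h0 : x.map (fun _ => ()) = List.replicate x.length () := List.map_const' ..
  rw [h0]
  generalize x.length + 1 = N
  induction N with
  | zero => simp
  | succ N ih =>
    rw [List.range_succ, List.filter_append, List.length_append, ih, Finset.sum_range_succ]
    congr 1
    by_cases h : zs (cod N) (List.replicate x.length ()) = x
    · simp [h]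
    · simp [h]

theorem offline_est : Offline est := by
  refine ⟨fun x => by unfold est; positivity, fun n => ?_⟩
  unfold est
  have h1 : ∀ v : Fin n → Bool, (cnt (List.ofFn v) : ℝ) / (((List.ofFn v).length + 1 : ℕ) : ℝ) =
      ∑ i ∈ Finset.range (n + 1),
        if zs (cod i) (List.replicate n ()) = List.ofFn v then 1 / ((n + 1 : ℕ) : ℝ) else 0 := by
    intro v
    rw [cnt_eq]
    simp only [List.length_ofFn]
    push_cast
    rw [Finset.sum_div]
    refine Finset.sum_congr rfl fun i _ => ?_
    split_ifs <;> simp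
  rw [Finset.sum_congr rfl fun v _ => h1 v, Finset.sum_comm]
  have h2 : ∀ i ∈ Finset.range (n + 1), (∑ v : Fin n → Bool,
      if zs (cod i) (List.replicate n ()) = List.ofFn v then 1 / ((n + 1 : ℕ) : ℝ) else 0) =
      1 / ((n + 1 : ℕ) : ℝ) := by
    intro i _
    set z := zs (cod i) (List.replicate n ()) with hz
    have hl : z.length = n := by rw [hz, length_zs]; simp
    rw [Finset.sum_eq_single (fun j : Fin n => z[(j : ℕ)]'(by rw [hl]; exact j.2))]
    · rw [if_pos]
      apply List.ext_getElem
      · simp [hl]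
      · intro j h1 h2
        simp
    · intro v _ hv
      rw [if_neg]
      intro h
      apply hv
      funext j
      simp only [h]
      simp
    · intro h
      exact absurd (Finset.mem_univ _) h
  rw [Finset.sum_congr rfl h2, Finset.sum_const, Finset.card_range, nsmul_eq_mul]
  field_simp

theorem inP_est : InP est := by
  refine ⟨fun y => bits (cnt (unpair y).1, (unpair y).1.length + 1), ?_, fun x k => ?_⟩
  · apply polyTime_bits (g := fun y => (cnt (unpair y).1, (unpair y).1.length + 1))
    have h0 : Poly (fun y : List Bool => (unpair y).1) := Poly.fst poly_unpair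
    have h1 : Poly (fun y : List Bool => cnt (unpair y).1) := poly_cnt.comp h0
    exact NPC.Poly.pair h1 (NPC.Poly.add (NPC.Poly.length h0) (NPC.Poly.const 1))
  · refine ⟨cnt x, x.length + 1, Nat.succ_pos _, ?_, ?_⟩
    · simp only [unpair_pairBits]
    · unfold est
      rw [sub_self, abs_zero]
      positivity

/-- the estimator gives mass at least `1 / (n + 1)` to the words of the first programs -/
theorem est_zs {i n : ℕ} (h : i ≤ n) : 1 / ((n : ℝ) + 1) ≤ est (zs (cod i) (List.replicate n ())) := by
  unfold est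
  have hl : (zs (cod i) (List.replicate n ())).length = n := by rw [length_zs]; simp
  rw [cnt_eq, hl]
  have h1 : 1 ≤ ∑ j ∈ Finset.range (n + 1),
      if zs (cod j) (List.replicate n ()) = zs (cod i) (List.replicate n ()) then 1 else 0 := by
    refine le_trans ?_ (Finset.single_le_sum (f := fun j =>
      if zs (cod j) (List.replicate n ()) = zs (cod i) (List.replicate n ()) then 1 else 0)
      (fun j _ => Nat.zero_le _) (Finset.mem_range.2 (Nat.lt_succ_of_le h)))
    simp
  push_cast
  have h2 : (1 : ℝ) ≤ ∑ j ∈ Finset.range (n + 1),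
      if zs (cod j) (List.replicate n ()) = zs (cod i) (List.replicate n ()) then (1:ℝ) else 0 := by
    exact_mod_cast h1
  gcongr

/-! ### The lower bound -/

theorem eval_le_pow' (Q : Polynomial ℕ) {x : ℕ} (hx : 1 ≤ x) :
    Q.eval x ≤ Q.eval 1 * x ^ Q.natDegree := by
  rw [Polynomial.eval_eq_sum_range, Polynomial.eval_eq_sum_range, Finset.sum_mul]
  refine Finset.sum_le_sum fun i hi => ?_
  rw [one_pow, mul_one]
  exact Nat.mul_le_mul_left _ (Nat.pow_le_pow_right hx (by
    rw [Finset.mem_range] at hi; omega))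

/-- one step against a correct program -/
theorem step_le {qt : List Bool → ℝ} (hq : Online qt) {F : List Bool → List Bool}
    (hF : ∀ (x : List Bool) (k : ℕ), ∃ a b : ℕ, 0 < b ∧
      F (pairBits x (List.replicate k true)) = bits (a, b) ∧ |(a : ℝ) / b - qt x| ≤ qt x / 2 ^ k)
    {e : T × List Unit} {z : List Bool} {pad : List Unit}
    (h0 : U e (pairBits (z ++ [false]) [true, true]) pad.length =
      some (F (pairBits (z ++ [false]) [true, true])))
    (h1 : U e (pairBits (z ++ [true]) [true, true]) pad.length =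
      some (F (pairBits (z ++ [true]) [true, true]))) :
    qt (stp e pad z) ≤ 5 / 8 * qt z := by
  obtain ⟨a, b, hb, hab, habs⟩ := hF (z ++ [false]) 2
  obtain ⟨c, d, hd, hcd, hcds⟩ := hF (z ++ [true]) 2
  have e2 : List.replicate 2 true = [true, true] := rfl
  rw [e2] at hab hcd
  have v0 : vl e (z ++ [false]) pad = some (a, b) := by
    unfold vl
    rw [h0, Option.bind_some, hab, unbits_bits]
  have v1 : vl e (z ++ [true]) pad = some (c, d) := by
    unfold vl
    rw [h1, Option.bind_some, hcd, unbits_bits]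
  have hsum := hq.2.2 z
  have hn0 := hq.2.1 (z ++ [false])
  have hn1 := hq.2.1 (z ++ [true])
  rw [abs_le] at habs hcds
  have hb' : (0 : ℝ) < b := by exact_mod_cast hb
  have hd' : (0 : ℝ) < d := by exact_mod_cast hd
  unfold stp dcs
  rw [v0, v1]
  simp only [Option.elim_some]
  by_cases h : c * b < a * d
  · rw [decide_eq_true h]
    have h2 : (c : ℝ) / d ≤ a / b := by
      rw [div_le_div_iff₀ hd' hb']
      exact_mod_cast h.le
    linarith [habs.1, habs.2, hcds.1, hcds.2]
  · rw [decide_eq_false h]
    have h2 : (a : ℝ) / b ≤ c / d := by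
      rw [div_le_div_iff₀ hb' hd']
      push Not at h
      exact_mod_cast h
    linarith [habs.1, habs.2, hcds.1, hcds.2]

theorem step_le' {qt : List Bool → ℝ} (hq : Online qt) (e : T × List Unit) (z : List Bool)
    (pad : List Unit) : qt (stp e pad z) ≤ qt z := by
  have hsum := hq.2.2 z
  have hn0 := hq.2.1 (z ++ [false])
  have hn1 := hq.2.1 (z ++ [true])
  unfold stp
  cases dcs e z pad
  · linarith
  · linarith

/-- the mass of the word of a correct program is exponentially small in the number of correct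
steps -/
theorem mass_le {qt : List Bool → ℝ} (hq : Online qt) {F : List Bool → List Bool}
    (hF : ∀ (x : List Bool) (k : ℕ), ∃ a b : ℕ, 0 < b ∧
      F (pairBits x (List.replicate k true)) = bits (a, b) ∧ |(a : ℝ) / b - qt x| ≤ qt x / 2 ^ k)
    {e : T × List Unit} {p : Polynomial ℕ}
    (he : ∀ x t, p.eval x.length ≤ t → U e x t = some (F x)) {n J : ℕ} (hJn : J ≤ n)
    (hJ : ∀ j < J, p.eval (2 * j + 5) ≤ n) :
    qt (zs e (List.replicate n ())) ≤ (5 / 8) ^ J := by
  set pad := List.replicate n () with hpad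
  have hlen : pad.length = n := by simp [hpad]
  have h1 : ∀ j ≤ J, qt ((stp e pad)^[j] []) ≤ (5 / 8) ^ j := by
    intro j
    induction j with
    | zero => intro _; simp [hq.1]
    | succ j ih =>
      intro hj
      rw [Function.iterate_succ_apply', pow_succ]
      have hz : ((stp e pad)^[j] []).length = j := by rw [length_iter]; simp
      have hU : ∀ b : Bool, U e (pairBits ((stp e pad)^[j] [] ++ [b]) [true, true]) pad.length =
          some (F (pairBits ((stp e pad)^[j] [] ++ [b]) [true, true])) := by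
        intro b
        apply he
        rw [length_pairBits, List.length_append, hz, hlen]
        have e1 : 2 * (j + [b].length) + 1 + [true, true].length = 2 * j + 5 := by simp; omega
        rw [e1]
        exact hJ j (by omega)
      have h2 := step_le hq hF (hU false) (hU true)
      have h3 := ih (by omega)
      linarith
  have h2 : ∀ k, qt ((stp e pad)^[J + k] []) ≤ (5 / 8) ^ J := by
    intro k
    induction k with
    | zero => exact h1 J le_rfl
    | succ k ih =>
      rw [← add_assoc, Function.iterate_succ_apply']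
      exact (step_le' hq e _ pad).trans ih
  have h3 := h2 (n - J)
  have e3 : J + (n - J) = n := by omega
  rw [e3] at h3
  unfold zs
  rw [hlen]
  exact h3

open Filter Asymptotics in
/-- comparison of growth rates -/
theorem growth {D : ℕ} (hD : 0 < D) : ∀ᶠ n : ℕ in atTop,
    Real.exp ((n : ℝ) ^ (1 / (2 * D) : ℝ)) * (5 / 8) ^ ⌊(n : ℝ) ^ (1 / D : ℝ)⌋₊ < 1 / ((n : ℝ) + 1) := by
  have hD' : (0 : ℝ) < D := by exact_mod_cast hD
  have hcast : Tendsto (fun n : ℕ => (n : ℝ)) atTop atTop := tendsto_natCast_atTop_atTop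
  have h2 : (fun x : ℝ => Real.log x) =o[atTop] fun x : ℝ => x ^ (1 / D : ℝ) :=
    isLittleO_log_rpow_atTop (by positivity)
  have hc : (0 : ℝ) < 1 / 100 := by norm_num
  have h2' := hcast.eventually (h2.def hc)
  have h3 : ∀ᶠ n : ℕ in atTop, (10000 : ℝ) ≤ (n : ℝ) ^ (1 / D : ℝ) :=
    ((tendsto_rpow_atTop (by positivity : (0 : ℝ) < 1 / D)).comp hcast).eventually_ge_atTop 10000
  filter_upwards [h2', h3, eventually_ge_atTop 1] with n e2 e3 e4
  have hn : (1 : ℝ) ≤ n := by exact_mod_cast e4
  set X := (n : ℝ) ^ (1 / D : ℝ) with hX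
  set Y := (n : ℝ) ^ (1 / (2 * D) : ℝ) with hY
  have hY0 : 0 ≤ Y := by positivity
  have hX0 : 0 ≤ X := by positivity
  have hYX : Y * Y = X := by
    rw [hY, hX, ← Real.rpow_add (by linarith)]
    congr 1
    field_simp
    norm_num
  have e1 : Y ≤ 1 / 100 * X := by
    have h100 : 100 ≤ Y := by
      by_contra hcon
      push Not at hcon
      nlinarith
    nlinarith
  rw [Real.norm_of_nonneg (Real.log_nonneg hn), Real.norm_of_nonneg hX0] at e2
  have e5 : X - 1 < ⌊X⌋₊ := Nat.sub_one_lt_floor X
  -- `5 / 8 ≤ exp (-3 / 8)`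
  have e6 : ((5 : ℝ) / 8) ^ ⌊X⌋₊ ≤ Real.exp (-(3 / 8) * ⌊X⌋₊) := by
    have h : (5 : ℝ) / 8 ≤ Real.exp (-(3 / 8)) := by
      have := Real.add_one_le_exp (-(3 / 8) : ℝ)
      linarith
    calc ((5 : ℝ) / 8) ^ ⌊X⌋₊ ≤ (Real.exp (-(3 / 8))) ^ ⌊X⌋₊ := by gcongr
      _ = Real.exp (-(3 / 8) * ⌊X⌋₊) := by rw [← Real.exp_nat_mul]; ring_nf
  have e7 : 1 / ((n : ℝ) + 1) ≥ Real.exp (-(Real.log n + 1)) := by
    rw [Real.exp_neg, Real.exp_add, Real.exp_log (by linarith), ge_iff_le, ← one_div]
    apply one_div_le_one_div_of_le (by linarith)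
    have := Real.add_one_le_exp (1 : ℝ)
    nlinarith
  refine lt_of_lt_of_le ?_ e7
  calc Real.exp Y * (5 / 8) ^ ⌊X⌋₊ ≤ Real.exp Y * Real.exp (-(3 / 8) * ⌊X⌋₊) := by gcongr
    _ = Real.exp (Y + -(3 / 8) * ⌊X⌋₊) := by rw [Real.exp_add]
    _ < Real.exp (-(Real.log n + 1)) := by
      rw [Real.exp_lt_exp]
      nlinarith

open Filter in
/-- the number of correct steps -/
theorem steps (p : Polynomial ℕ) : ∃ D : ℕ, 0 < D ∧ ∀ᶠ n : ℕ in atTop,
    ⌊(n : ℝ) ^ (1 / D : ℝ)⌋₊ ≤ n ∧ ∀ j < ⌊(n : ℝ) ^ (1 / D : ℝ)⌋₊, p.eval (2 * j + 5) ≤ n := by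
  set D := p.natDegree + 1 with hD
  refine ⟨D, Nat.succ_pos _, ?_⟩
  have hD' : (0 : ℝ) < D := by positivity
  have hcast : Tendsto (fun n : ℕ => (n : ℝ)) atTop atTop := tendsto_natCast_atTop_atTop
  set C := p.eval 1 * 10 ^ p.natDegree with hC
  have h3 : ∀ᶠ n : ℕ in atTop, ((C + 1 : ℕ) : ℝ) ≤ (n : ℝ) ^ (1 / D : ℝ) :=
    ((tendsto_rpow_atTop (by positivity : (0 : ℝ) < 1 / D)).comp hcast).eventually_ge_atTop _
  filter_upwards [h3, eventually_ge_atTop 1] with n e3 e4
  have hn : (1 : ℝ) ≤ n := by exact_mod_cast e4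
  set X := (n : ℝ) ^ (1 / D : ℝ) with hX
  have hX0 : 0 ≤ X := by positivity
  set J := ⌊X⌋₊ with hJ
  have hJX : (J : ℝ) ≤ X := Nat.floor_le hX0
  have hXD : X ^ D = n := by
    rw [hX, ← Real.rpow_natCast, ← Real.rpow_mul (by positivity), one_div_mul_cancel hD'.ne',
      Real.rpow_one]
  have hJD : J ^ D ≤ n := by
    have : (J : ℝ) ^ D ≤ n := by
      rw [← hXD]; gcongr
    exact_mod_cast this
  have hCJ : C + 1 ≤ J := Nat.le_floor e3
  refine ⟨?_, fun j hj => ?_⟩
  · refine le_trans ?_ hJD
    exact Nat.le_self_pow (by omega) J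
  · have h5 : 2 * j + 5 ≤ 10 * J := by omega
    have h6 : p.eval (2 * j + 5) ≤ p.eval 1 * (10 * J) ^ p.natDegree := by
      refine le_trans ?_ (eval_le_pow' p (by omega))
      rw [Polynomial.eval_eq_sum_range, Polynomial.eval_eq_sum_range]
      gcongr
    refine h6.trans (le_trans ?_ hJD)
    rw [mul_pow, ← mul_assoc, ← hC, hD, pow_succ, mul_comm]
    gcongr
    omega

/-- the main theorem -/
theorem main : ∃ q : List Bool → ℝ, Offline q ∧ InP q ∧
    ∀ qt : List Bool → ℝ, Online qt → InP qt →
      ∃ δ : ℝ, 0 < δ ∧ ∃ n₀ : ℕ, ∀ n ≥ n₀, RegretGt q qt n ((n : ℝ) ^ δ) := by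
  refine ⟨est, offline_est, inP_est, fun qt hq hP => ?_⟩
  obtain ⟨F, hF, hF2⟩ := hP
  obtain ⟨e, p, he⟩ := U_complete hF
  obtain ⟨i, hi⟩ := exists_cod e
  obtain ⟨D, hD, hD2⟩ := steps p
  refine ⟨1 / (2 * D), by positivity, ?_⟩
  have hall := (hD2.and (growth hD)).and (Filter.eventually_ge_atTop i)
  obtain ⟨n₀, hn₀⟩ := Filter.eventually_atTop.1 hall
  refine ⟨n₀, fun n hn => ?_⟩
  obtain ⟨⟨⟨h1, h2⟩, h3⟩, h4⟩ := hn₀ n hn
  refine ⟨zs e (List.replicate n ()), by rw [length_zs]; simp, ?_⟩
  have h5 := mass_le hq hF2 he h1 h2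
  have h6 := est_zs h4
  rw [hi] at h6
  calc Real.exp ((n : ℝ) ^ (1 / (2 * D) : ℝ)) * qt (zs e (List.replicate n ())) ≤
        Real.exp ((n : ℝ) ^ (1 / (2 * D) : ℝ)) * (5 / 8) ^ ⌊(n : ℝ) ^ (1 / D : ℝ)⌋₊ := by gcongr
    _ < 1 / ((n : ℝ) + 1) := h3
    _ ≤ _ := h6

end Pool.Agent.H109R3.OE
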